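import Pool.Agent.Q73.CM.ASM
import Pool.Agent.Q73.CM.COD
import Pool.Agent.Q73.CM.CNT
import Pool.Agent.Q92.CM.CYL
import Pool.Agent.Q92.CM.LLN
import Pool.Agent.Q73.CM.LOC
import Pool.Agent.Q73.CM.MD
import Pool.Agent.Q73.CM.HA
import Pool.Agent.Q73.CM.CUT
import Pool.Agent.Q73.CM.C1A
import Pool.Agent.Q73.CM.M1
import Pool.Agent.Q73.CM.M2
import Pool.Agent.Q73.CM.AS
import Pool.Agent.Q73.CM.LO
import Pool.Agent.Q73.CM.GA
import Pool.Agent.Q73.CM.GL
import Pool.Agent.Q73.CM.GP
import Pool.Agent.Q73.CM.BH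
import Pool.Agent.Q73.CM.BU
import Pool.Agent.Q73.CM.TR
import Pool.Agent.Q73.CM.SW
import Pool.Agent.Q73.CM.EX
import Pool.Agent.Q73.CM.FIN0
import Pool.Agent.Q73.CM.FIN1
import Pool.Agent.Q73.CM.FIN2
import Pool.Agent.Q73.CM.EXC
import Pool.Agent.Q73.CM.ATT

set_option autoImplicit false

/-!
MP_0a98f6_an, Q1 (full answer): for mixed-type carpets the configurations (a), (b), (d) do not occur
and the configuration (c) occurs.

Let `a j`, `b k` be the widths of the columns and the heights of the rows, `s₁`, `s₂` the dimensions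
of the projections, `t j`, `t' k` those of the fibres of the columns and rows. The upper box dimension
is at most `max (s₁ + τA) (s₂ + τB)` (`∑ a^s₁ b^τA = 1 = ∑ b^s₂ a^τB`), the lower dimension at most
and the Assouad dimension at least all `s₁ + t j`, `s₂ + t' k`, and the Hausdorff dimension at least
the dimensions of the Bernoulli measures. If `dim_L = dim_H`, the Bernoulli measures with weights
`a^s₁ b^(t j)`, `b^s₂ a^(t' k)` and a convex combination of them with equal Lyapunov exponents force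
`s₁ + τA, s₂ + τB ≤ dim_H`. If `dim_B = dim_A`, one of the two directions has uniform fibres and its
Bernoulli measure has the dimension `dim_B`, since otherwise its cylinders would be long in the wrong
direction, against the Gibbs inequality.
-/

namespace Pool.Agent.Results.MP_0a98f6_an.OnlyConfigurationC

open Pool.Agent.Q73.CM Pool.Agent.Q92.CM

/-- For a mixed-type carpet `F` neither `dim_L = dim_H < dim_B = dim_A`, nor
`dim_L = dim_H < dim_B < dim_A`, nor `dim_L < dim_H < dim_B = dim_A`; there is a mixed-type carpet with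
`dim_L < dim_H = dim_B < dim_A`; for every mixed-type carpet `dim_L = dim_H` implies `dim_B = dim_H` and
`dim_B = dim_A` implies `dim_H = dim_B`. -/
theorem result :
    (∀ F, IsMixedCarpet F → ¬ ConfigA F ∧ ¬ ConfigB F ∧ ¬ ConfigD F) ∧
    (∃ F, IsMixedCarpet F ∧ ConfigC F) ∧
    ∀ F, IsMixedCarpet F → ∀ D, IsBoxDim F D →
      (ENNReal.ofReal (dimL F) = dimH F → dimH F = ENNReal.ofReal D) ∧
      (D = dimA F → dimH F = ENNReal.ofReal D) :=
  ASM.main (t_HA t_COD t_CNT t_CYL t_LLN t_LOC t_MD) (t_C1A t_CUT) t_CUT t_M1 t_M2 t_AS t_LO t_GA t_GL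
    t_GP t_BH t_BU t_TR t_SW t_EX t_FIN0 t_FIN1 t_FIN2 t_EXC t_ATT

end Pool.Agent.Results.MP_0a98f6_an.OnlyConfigurationC
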